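import Mathlib

/-! Three four-point metric spaces whose pairwise Gromov-Hausdorff distances cannot be realized
simultaneously as Hausdorff distances. -/

open Set Metric GromovHausdorff

namespace Pool.Agent.Results.MP_975509_gt.Counter

def D : Fin 3 → Fin 4 → Fin 4 → ℕ :=
  ![![![0, 10, 12, 11], ![10, 0, 10, 10], ![12, 10, 0, 12], ![11, 10, 12, 0]],
    ![![0, 12, 10, 12], ![12, 0, 11, 12], ![10, 11, 0, 11], ![12, 12, 11, 0]],
    ![![0, 10, 11, 11], ![10, 0, 12, 10], ![11, 12, 0, 12], ![11, 10, 12, 0]]]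

def P (_ : Fin 3) : Type := Fin 4

instance (k : Fin 3) : Fintype (P k) := inferInstanceAs (Fintype (Fin 4))
instance (k : Fin 3) : Nonempty (P k) := inferInstanceAs (Nonempty (Fin 4))

lemma D_self : ∀ k i, D k i i = 0 := by decide
lemma D_comm : ∀ k i j, D k i j = D k j i := by decide
lemma D_tri : ∀ k i j l, D k i l ≤ D k i j + D k j l := by decide
lemma D_sep : ∀ k i j, D k i j < 2 → i = j := by decide

instance (k : Fin 3) : MetricSpace (P k) where
  dist i j := (D k i j : ℝ)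
  dist_self i := by simp [D_self]
  dist_comm i j := by simp only [D_comm k i j]
  dist_triangle i j l := by exact_mod_cast D_tri k i j l
  eq_of_dist_eq_zero := by
    intro i j h
    have : D k i j = 0 := by exact_mod_cast h
    exact D_sep k i j (by omega)

lemma dist_eq (k : Fin 3) (i j : P k) : dist i j = (D k i j : ℝ) := rfl

def Good (k l : Fin 3) (f : Fin 4 → Fin 4) : Prop :=
  ∀ i j, D k i j ≤ D l (f i) (f j) + 1 ∧ D l (f i) (f j) ≤ D k i j + 1

instance (k l : Fin 3) (f : Fin 4 → Fin 4) : Decidable (Good k l f) := by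
  unfold Good; infer_instance

lemma gh_le (k l : Fin 3) (f : Fin 4 → Fin 4) (hf : Good k l f) (hs : Function.Surjective f) :
    ghDist (P k) (P l) ≤ 1 / 2 := by
  have := ghDist_le_of_approx_subsets (X := P k) (Y := P l) (s := univ) (fun x => f x.1)
    (ε₁ := 0) (ε₂ := 1) (ε₃ := 0) (fun x => ⟨x, trivial, by simp⟩)
    (fun y => by
      obtain ⟨x, hx⟩ := hs y
      exact ⟨⟨x, trivial⟩, by simp [hx]⟩)
    (fun x y => by
      have h := hf x.1 y.1
      have h1 : (D k x.1 y.1 : ℝ) ≤ D l (f x.1) (f y.1) + 1 := by exact_mod_cast h.1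
      have h2 : (D l (f x.1) (f y.1) : ℝ) ≤ D k x.1 y.1 + 1 := by exact_mod_cast h.2
      rw [Subtype.dist_eq, dist_eq, dist_eq, abs_le]
      constructor <;> linarith)
  linarith

lemma get_map {Z : Type} [MetricSpace Z] (k l : Fin 3) (φ : P k → Z) (ψ : P l → Z)
    (hφ : Isometry φ) (hψ : Isometry ψ) (h : hausdorffDist (range φ) (range ψ) ≤ 1 / 2) :
    ∃ f : Fin 4 → Fin 4, Good k l f ∧ ∀ i, dist (φ i) (ψ (f i)) < 3 / 5 := by
  have hfin : hausdorffEDist (range φ) (range ψ) ≠ ⊤ :=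
    hausdorffEDist_ne_top_of_nonempty_of_bounded (range_nonempty _) (range_nonempty _)
      (finite_range φ).isBounded (finite_range ψ).isBounded
  have h1 : ∀ i : P k, ∃ j : P l, dist (φ i) (ψ j) < 3 / 5 := by
    intro i
    obtain ⟨_, ⟨j, rfl⟩, hj⟩ := exists_dist_lt_of_hausdorffDist_lt (mem_range_self i)
      (show hausdorffDist (range φ) (range ψ) < 3 / 5 by linarith) hfin
    exact ⟨j, hj⟩
  choose f hf using h1
  refine ⟨f, fun i j => ?_, hf⟩
  have e1 : dist (φ i) (φ j) = D k i j := hφ.dist_eq i j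
  have e2 : dist (ψ (f i)) (ψ (f j)) = D l (f i) (f j) := hψ.dist_eq _ _
  have t1 := dist_triangle4 (φ i) (ψ (f i)) (ψ (f j)) (φ j)
  have t2 := dist_triangle4 (ψ (f i)) (φ i) (φ j) (ψ (f j))
  have a1 := hf i
  have a2 := hf j
  rw [dist_comm (ψ (f j))] at t1
  rw [dist_comm (ψ (f i)) (φ i)] at t2
  have b1 : (D k i j : ℝ) < (D l (f i) (f j) + 2 : ℕ) := by push_cast; linarith
  have b2 : (D l (f i) (f j) : ℝ) < (D k i j + 2 : ℕ) := by push_cast; linarith
  have c1 := Nat.cast_lt.mp b1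
  have c2 := Nat.cast_lt.mp b2
  omega

lemma cls2 : ∀ h : Fin 4 → Fin 4, Good 2 0 h → h = ![1, 0, 2, 3] ∨ h = ![1, 3, 2, 0] := by
  decide +kernel

lemma cls1 : ∀ g : Fin 4 → Fin 4, Good 1 2 g →
    g = ![0, 2, 1, 3] ∨ g = ![0, 3, 1, 2] ∨ g = ![3, 0, 1, 2] ∨ g = ![3, 2, 1, 0] := by
  decide +kernel

lemma cls0 : ∀ f : Fin 4 → Fin 4, Good 0 1 f →
    f = ![0, 2, 1, 3] ∨ f = ![0, 2, 3, 1] ∨ f = ![1, 2, 0, 3] ∨ f = ![1, 2, 3, 0] ∨
      f = ![3, 2, 0, 1] ∨ f = ![3, 2, 1, 0] := by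
  decide +kernel

theorem result : ∃ (X₁ X₂ X₃ : Type) (_ : MetricSpace X₁) (_ : MetricSpace X₂)
    (_ : MetricSpace X₃) (_ : CompactSpace X₁) (_ : CompactSpace X₂) (_ : CompactSpace X₃)
    (_ : Nonempty X₁) (_ : Nonempty X₂) (_ : Nonempty X₃),
    ∀ (Z : Type) [MetricSpace Z] (φ₁ : X₁ → Z) (φ₂ : X₂ → Z) (φ₃ : X₃ → Z),
      Isometry φ₁ → Isometry φ₂ → Isometry φ₃ →
      ¬ (hausdorffDist (range φ₁) (range φ₂) = ghDist X₁ X₂ ∧
         hausdorffDist (range φ₂) (range φ₃) = ghDist X₂ X₃ ∧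
         hausdorffDist (range φ₃) (range φ₁) = ghDist X₃ X₁) := by
  refine ⟨P 0, P 1, P 2, inferInstance, inferInstance, inferInstance, inferInstance, inferInstance,
    inferInstance, inferInstance, inferInstance, inferInstance, ?_⟩
  rintro Z _ φ₁ φ₂ φ₃ h₁ h₂ h₃ ⟨e₁, e₂, e₃⟩
  obtain ⟨f, hf, df⟩ := get_map 0 1 φ₁ φ₂ h₁ h₂
    (e₁ ▸ gh_le 0 1 ![0, 2, 1, 3] (by decide) (by decide))
  obtain ⟨g, hg, dg⟩ := get_map 1 2 φ₂ φ₃ h₂ h₃
    (e₂ ▸ gh_le 1 2 ![0, 2, 1, 3] (by decide) (by decide))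
  obtain ⟨h, hh, dh⟩ := get_map 2 0 φ₃ φ₁ h₃ h₁
    (e₃ ▸ gh_le 2 0 ![1, 0, 2, 3] (by decide) (by decide))
  have key : ∀ i, i = h (g (f i)) := by
    intro i
    apply D_sep 0
    have t := dist_triangle4 (φ₁ i) (φ₂ (f i)) (φ₃ (g (f i))) (φ₁ (h (g (f i))))
    have e : dist (φ₁ i) (φ₁ (h (g (f i)))) = D 0 i (h (g (f i))) := h₁.dist_eq _ _
    have a1 := df i
    have a2 := dg (f i)
    have a3 := dh (g (f i))
    have b : (D 0 i (h (g (f i))) : ℝ) < (2 : ℕ) := by push_cast; linarith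
    exact Nat.cast_lt.mp b
  revert key
  rcases cls0 f hf with rfl | rfl | rfl | rfl | rfl | rfl <;>
    rcases cls1 g hg with rfl | rfl | rfl | rfl <;>
    rcases cls2 h hh with rfl | rfl <;> decide

end Pool.Agent.Results.MP_975509_gt.Counter
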